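import Pool.Agent.N15.AS.Main
import Pool.Agent.N15.AS.Fou

/-!
# Finitude of attractors near diffeomorphisms with affine torus symmetries

Author: helper15 (leaf FOU: helper543). The push is that of helper318 (`Y318/MN`);
smallness of families: library of helper564 and team (`W564/SC`), helper813 (`N813/CL`).

Definitions: `TorusAct`, `lin`, `PerCharsFixed` in `Pool/Agent/N15/AS/Defs.lean`, `TransMod` in
`Pool/Agent/N15/AS/Main.lean`; `V k = ℝ^k`, `DiffM n N r = Diff^r(N)` with the `C^r` topology
`strongTop n N r` in `Pool/Agent/H718R2/G0.lean`; `omegaLim`, `IsAttractor`, `FiniteAttractors` in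
`Pool/Agent/H728R2/FA/Defs.lean`; `IsCrit` (critical point) in `Y318/MN/Push.lean` and `CritInv`
(points whose whole orbit consists of critical points) in `Y318/MN/Dyn.lean`.
-/

set_option autoImplicit false

open scoped Manifold ContDiff Topology

universe u

namespace Pool.Agent.Results.MP_3a2b62_an.AffineSymmetry

open MeasureTheory Set Pool.Agent.H718R2.G Pool.Agent.TH80.OMS Pool.Agent.Y318.MN
  Pool.Agent.N15.AS

open Pool.Agent.H728R2.FA (omegaLim FiniteAttractors)

/-- Let `R_X`, `X ∈ ℝ^k`, be a smooth action of the torus `ℝ^k / ℤ^k` on the closed manifold `N`, let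
`A ∈ GL(k, ℤ)` have no eigenvalue which is a root of unity, except possibly `1`, let `F` be a `C^r`
diffeomorphism of `N`, `1 ≤ r ≤ ∞`, and let `h` be a smooth function on `N`, invariant under the
torus, with `h ∘ F ≥ h`, such that `F R_X = R_{AX} F` holds at the critical points of `h`. Suppose
that the points whose whole `F`-orbit consists of critical points of `h` are contained in finitely
many pairwise disjoint closed sets `M 0, …, M (m - 1)` of critical points, invariant under `F` and
the torus, on which `F` is transitive modulo the torus. Then every neighbourhood of `F` in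
`Diff^r(N)` contains `G` such that every `ω`-limit set of `G` is contained in one of the `M i`, and
`G` has finitely many attractors covering `N` up to a null set, for every measure on `N`. -/
theorem result (k n : ℕ) (N : Type u) [TopologicalSpace N] [T2Space N] [CompactSpace N]
    [ChartedSpace (V n) N] [IsManifold (𝓡 n) ∞ N] (r : ℕ∞) (hr : 1 ≤ r)
    (R : V k → N → N) (hR : TorusAct k n N R) (A : Matrix (Fin k) (Fin k) ℤ)
    (hA : IsUnit A.det) (hP : PerCharsFixed A) (F : DiffM n N r) (h : N → ℝ)
    (hh : ContMDiff (𝓡 n) 𝓘(ℝ, ℝ) ∞ h) (hRh : ∀ X y, h (R X y) = h y) (hm : ∀ y, h y ≤ h (F y))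
    (hcomm : ∀ X y, IsCrit n h y → F (R X y) = R (lin A X) (F y)) (m : ℕ) (M : Fin m → Set N)
    (hM : ∀ i, TransMod R F (M i)) (hdis : ∀ i j, i ≠ j → Disjoint (M i) (M j))
    (hC : ∀ i, ∀ y ∈ M i, IsCrit n h y) (hcov : CritInv n F h ⊆ ⋃ i, M i)
    (U : Set (DiffM n N r)) (hU : IsOpen[strongTop n N r] U) (hFU : F ∈ U) :
    ∃ G ∈ U, (∀ p, ∃ i, omegaLim G p ⊆ M i) ∧
      ∀ (_ : MeasurableSpace N) (μ : Measure N), FiniteAttractors μ G :=
  main2 fou hr hR hA hP hh hRh hm hcomm M hM hdis hC hcov U hU hFU

end Pool.Agent.Results.MP_3a2b62_an.AffineSymmetry
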