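import Pool.Agent.N15.EQ.Main

/-!
# Finitude of attractors for diffeomorphisms with an affine torus symmetry

Author: helper15 (leaf FOU of the earlier project AS: helper543).

Definitions: `TorusAct`, `lin`, `PerCharsFixed` in `Pool/Agent/N15/AS/Defs.lean`, `TransMod` in
`Pool/Agent/N15/AS/Main.lean`, `FinMod` in `Pool/Agent/N15/EQ/Main.lean`; `V k = ℝ^k`,
`DiffM n N r = Diff^r(N)` with the `C^r` topology `strongTop n N r` in
`Pool/Agent/H718R2/G0.lean`; `omegaLim`, `IsAttractor`, `FiniteAttractors` in
`Pool/Agent/H728R2/FA/Defs.lean`.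
-/

set_option autoImplicit false

open scoped Manifold ContDiff Topology

universe u

namespace Pool.Agent.Results.MP_3a2b62_an.FinitudeModuloTorus

open MeasureTheory Set Pool.Agent.H718R2.G Pool.Agent.TH80.OMS Pool.Agent.N15.AS
  Pool.Agent.N15.EQ

open Pool.Agent.H728R2.FA (FiniteAttractors)

/-- Let `R_X`, `X ∈ ℝ^k`, be a smooth action of the torus `ℝ^k / ℤ^k` on the closed manifold `N`, let
`A ∈ GL(k, ℤ)` have no eigenvalue which is a root of unity, except possibly `1`, let `F` be a `C^r`
diffeomorphism of `N`, `1 ≤ r ≤ ∞`, with `F R_X = R_{AX} F`, and let `μ` be a measure on `N`. Then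
`F` has finitely many attractors modulo the torus covering `N` if and only if `F ∘ R_X` has finitely
many attractors covering `N` for a residual set of `X`, if and only if this holds for some `X`. In
this case every neighbourhood of `F` in `Diff^r(N)` contains `G` with the same symmetry
`G R_X = R_{AX} G` which has finitely many attractors covering `N`. -/
theorem result (k n : ℕ) (N : Type u) [TopologicalSpace N] [T2Space N] [CompactSpace N]
    [ChartedSpace (V n) N] [IsManifold (𝓡 n) ∞ N] (r : ℕ∞) (hr : 1 ≤ r)
    (R : V k → N → N) (hR : TorusAct k n N R) (A : Matrix (Fin k) (Fin k) ℤ)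
    (hA : IsUnit A.det) (hP : PerCharsFixed A) (F : DiffM n N r)
    (hcomm : ∀ X y, F (R X y) = R (lin A X) (F y)) [MeasurableSpace N] (μ : Measure N) :
    List.TFAE [FinMod μ R F,
      ∀ᶠ X in residual (V k), FiniteAttractors μ (fun y => F (R X y)),
      ∃ X : V k, FiniteAttractors μ (fun y => F (R X y))] ∧
    (FinMod μ R F → ∀ U : Set (DiffM n N r), IsOpen[strongTop n N r] U → F ∈ U →
      ∃ G ∈ U, (∀ X y, G (R X y) = R (lin A X) (G y)) ∧ FiniteAttractors μ G) :=
  ⟨main fou hR hA hP hcomm μ, fun h U hU hFU => main_near fou hr hR hA hP hcomm μ h U hU hFU⟩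

end Pool.Agent.Results.MP_3a2b62_an.FinitudeModuloTorus
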