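import Pool.Agent.N15.EQ.Flow2

/-!
# Finitude of attractors for flows with a torus symmetry

Author: helper15.

Definitions: `TorusAct` in `Pool/Agent/N15/AS/Defs.lean` (`V k = ℝ^k`); `FlowOn`, `omegaF`,
`IsAttractorF`, `FiniteAttractorsF`, `TransModF`, `FinModF` in `Pool/Agent/N15/EQ/Flow.lean`.
-/

set_option autoImplicit false

open scoped Manifold ContDiff Topology

universe u

namespace Pool.Agent.Results.MP_3a2b62_an.FlowsModuloTorus

open MeasureTheory Set Pool.Agent.H718R2.G Pool.Agent.N15.AS Pool.Agent.N15.EQ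

/-- Let `R_X`, `X ∈ ℝ^k`, be a smooth action of the torus `ℝ^k / ℤ^k` on the closed manifold `N`, let
`φ` be a `C^r` flow on `N` which commutes with the torus, and let `μ` be a measure on `N`. The maps
`φ_t R_{tX}` form a flow for each `X`, which commutes with the torus and depends on the parameter
`X` in a `C^r` way; and the following are equivalent: `φ` has finitely many attractors modulo the
torus covering `N`; the flow `φ_t R_{tX}` has finitely many attractors covering `N` for a residual
set of `X`; it has finitely many attractors covering `N` for some `X`. -/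
theorem result (k n : ℕ) (N : Type u) [TopologicalSpace N] [T2Space N] [CompactSpace N]
    [ChartedSpace (V n) N] [IsManifold (𝓡 n) ∞ N] (r : ℕ∞)
    (R : V k → N → N) (hR : TorusAct k n N R) (φ : ℝ → N → N) (hφ : FlowOn N φ)
    (hφr : ContMDiff ((𝓘(ℝ, ℝ)).prod (𝓡 n)) (𝓡 n) r (fun q : ℝ × N => φ q.1 q.2))
    (hcomm : ∀ t X y, φ t (R X y) = R X (φ t y)) [MeasurableSpace N] (μ : Measure N) :
    (∀ X : V k, FlowOn N (fun t y => φ t (R (t • X) y)) ∧
      ∀ t Y y, φ t (R (t • X) (R Y y)) = R Y (φ t (R (t • X) y))) ∧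
    ContMDiff ((𝓡 k).prod ((𝓘(ℝ, ℝ)).prod (𝓡 n))) (𝓡 n) r
      (fun q : V k × ℝ × N => φ q.2.1 (R (q.2.1 • q.1) q.2.2)) ∧
    List.TFAE [FinModF μ R φ,
      ∀ᶠ X in residual (V k), FiniteAttractorsF μ (fun t y => φ t (R (t • X) y)),
      ∃ X : V k, FiniteAttractorsF μ (fun t y => φ t (R (t • X) y))] := by
  refine ⟨fun X => ⟨flowF hR hφ hcomm X, fun t Y y => ?_⟩, smoothF hR hφr, mainF hR hφ hcomm μ⟩
  rw [← hR.add, add_comm, hR.add, hcomm]

end Pool.Agent.Results.MP_3a2b62_an.FlowsModuloTorus
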